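import Mathlib

/-!
# A Marcinkiewicz type estimate
-/

set_option autoImplicit false

open MeasureTheory Filter Topology Set ENNReal

namespace Pool.Agent.K9h27.LI

variable {X : Type*} [MeasurableSpace X] {μ : Measure X}

lemma termA [SFinite μ] {G : X → ℝ} (hG : Measurable G) (hG0 : ∀ x, 0 ≤ G x) {β γ : ℝ}
    (hβ : 0 < β) (hβγ : β < γ) :
    ENNReal.ofReal (γ - β) * ∫⁻ t in Ioi (0 : ℝ), (ENNReal.ofReal (t ^ (-β)) *
      ∫⁻ x in {x | t ≤ G x}, ENNReal.ofReal (G x ^ β) ∂μ) * ENNReal.ofReal (t ^ (γ - 1)) =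
      ∫⁻ x, ENNReal.ofReal (G x ^ γ) ∂μ := by
  set ν := μ.withDensity (fun x => ENNReal.ofReal (G x ^ β)) with hν
  have hm : Measurable (fun x => ENNReal.ofReal (G x ^ β)) := by fun_prop
  have h1 := lintegral_rpow_eq_lintegral_meas_le_mul ν (f := G) (ae_of_all _ hG0) hG.aemeasurable
    (p := γ - β) (by linarith)
  have h2 : ∫⁻ x, ENNReal.ofReal (G x ^ (γ - β)) ∂ν = ∫⁻ x, ENNReal.ofReal (G x ^ γ) ∂μ := by
    rw [hν, lintegral_withDensity_eq_lintegral_mul _ hm (by fun_prop)]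
    refine lintegral_congr (fun x => ?_)
    simp only [Pi.mul_apply]
    rw [← ENNReal.ofReal_mul (Real.rpow_nonneg (hG0 x) _)]
    congr 1
    rcases (hG0 x).eq_or_lt with h | h
    · rw [← h, Real.zero_rpow hβ.ne', zero_mul, Real.zero_rpow (by linarith)]
    · rw [← Real.rpow_add h]; congr 1; ring
  rw [← h2, h1]
  congr 1
  refine setLIntegral_congr_fun measurableSet_Ioi (fun t ht => ?_)
  have ht0 : (0 : ℝ) < t := ht
  rw [hν, withDensity_apply _ (measurableSet_le measurable_const hG)]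
  rw [mul_comm (ENNReal.ofReal (t ^ (-β))), mul_assoc, ← ENNReal.ofReal_mul (by positivity),
    ← Real.rpow_add ht0]
  congr 3
  ring

lemma inner_B {g : ℝ} (hg : 0 < g) {s : ℝ} (hs : 0 < s) :
    ENNReal.ofReal s * ∫⁻ t in Ioi g, ENNReal.ofReal (t ^ (-s - 1)) = ENNReal.ofReal (g ^ (-s)) := by
  have h1 : IntegrableOn (fun t : ℝ => t ^ (-s - 1)) (Ioi g) :=
    integrableOn_Ioi_rpow_of_lt (by linarith) hg
  rw [← ofReal_integral_eq_lintegral_ofReal h1]
  · rw [integral_Ioi_rpow_of_lt (by linarith) hg, ← ENNReal.ofReal_mul hs.le]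
    congr 1
    rw [sub_add_cancel]
    field_simp
  · filter_upwards [ae_restrict_mem measurableSet_Ioi] with t ht
    have : 0 < t := hg.trans ht
    positivity

lemma termB [SFinite μ] {G : X → ℝ} (hG : Measurable G) (hG0 : ∀ x, 0 ≤ G x) {α γ : ℝ}
    (hγ : 0 < γ) (hγα : γ < α) :
    ENNReal.ofReal (α - γ) * ∫⁻ t in Ioi (0 : ℝ), (ENNReal.ofReal (t ^ (-α)) *
      ∫⁻ x in {x | G x < t}, ENNReal.ofReal (G x ^ α) ∂μ) * ENNReal.ofReal (t ^ (γ - 1)) ≤
      ∫⁻ x, ENNReal.ofReal (G x ^ γ) ∂μ := by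
  have hms : ∀ t, MeasurableSet {x | G x < t} := fun t => measurableSet_lt hG measurable_const
  have h1 : ∀ t ∈ Ioi (0 : ℝ), (ENNReal.ofReal (t ^ (-α)) *
      ∫⁻ x in {x | G x < t}, ENNReal.ofReal (G x ^ α) ∂μ) * ENNReal.ofReal (t ^ (γ - 1)) =
      ∫⁻ x, ({q : ℝ × X | G q.2 < q.1} : Set (ℝ × X)).indicator (fun q =>
        ENNReal.ofReal (q.1 ^ (-(α - γ) - 1)) * ENNReal.ofReal (G q.2 ^ α)) (t, x) ∂μ := by
    intro t ht
    have ht0 : (0 : ℝ) < t := ht
    rw [← lintegral_indicator (hms t), mul_comm, ← mul_assoc,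
      ← ENNReal.ofReal_mul (by positivity), ← Real.rpow_add ht0, ← lintegral_const_mul']
    · refine lintegral_congr (fun x => ?_)
      by_cases h : G x < t
      · rw [indicator_of_mem (show x ∈ {x | G x < t} from h),
          indicator_of_mem (show (t, x) ∈ {q : ℝ × X | G q.2 < q.1} from h)]
        congr 3
        ring
      · rw [indicator_of_notMem (show x ∉ {x | G x < t} from h),
          indicator_of_notMem (show (t, x) ∉ {q : ℝ × X | G q.2 < q.1} from h), mul_zero]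
    · exact ENNReal.ofReal_ne_top
  rw [setLIntegral_congr_fun measurableSet_Ioi h1]
  have hmq : Measurable (({q : ℝ × X | G q.2 < q.1} : Set (ℝ × X)).indicator (fun q =>
        ENNReal.ofReal (q.1 ^ (-(α - γ) - 1)) * ENNReal.ofReal (G q.2 ^ α))) := by
    refine Measurable.indicator ?_ (measurableSet_lt (by fun_prop) (by fun_prop))
    fun_prop
  rw [lintegral_lintegral_swap (f := fun t x => ({q : ℝ × X | G q.2 < q.1} : Set (ℝ × X)).indicator
    (fun q => ENNReal.ofReal (q.1 ^ (-(α - γ) - 1)) * ENNReal.ofReal (G q.2 ^ α)) (t, x))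
    hmq.aemeasurable]
  rw [← lintegral_const_mul' _ _ ENNReal.ofReal_ne_top]
  refine lintegral_mono (fun x => ?_)
  rcases (hG0 x).eq_or_lt with h | h
  · have h2 : ∀ t : ℝ, ({q : ℝ × X | G q.2 < q.1} : Set (ℝ × X)).indicator (fun q =>
        ENNReal.ofReal (q.1 ^ (-(α - γ) - 1)) * ENNReal.ofReal (G q.2 ^ α)) (t, x) = 0 := by
      intro t
      rw [indicator_apply]
      split_ifs
      · simp only
        rw [← h, Real.zero_rpow (by linarith)]
        simp
      · rfl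
    simp only [h2, lintegral_zero, mul_zero]
    exact bot_le
  · have h2 : ∀ t : ℝ, ({q : ℝ × X | G q.2 < q.1} : Set (ℝ × X)).indicator (fun q =>
        ENNReal.ofReal (q.1 ^ (-(α - γ) - 1)) * ENNReal.ofReal (G q.2 ^ α)) (t, x) =
        ENNReal.ofReal (G x ^ α) * (Ioi (G x)).indicator (fun t =>
          ENNReal.ofReal (t ^ (-(α - γ) - 1))) t := by
      intro t
      by_cases h3 : G x < t
      · rw [indicator_of_mem (show t ∈ Ioi (G x) from h3),
          indicator_of_mem (show (t, x) ∈ {q : ℝ × X | G q.2 < q.1} from h3), mul_comm]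
      · rw [indicator_of_notMem (show t ∉ Ioi (G x) from h3),
          indicator_of_notMem (show (t, x) ∉ {q : ℝ × X | G q.2 < q.1} from h3), mul_zero]
    simp only [h2]
    rw [lintegral_const_mul' _ _ ENNReal.ofReal_ne_top]
    calc ENNReal.ofReal (α - γ) * (ENNReal.ofReal (G x ^ α) * ∫⁻ t in Ioi (0 : ℝ),
          (Ioi (G x)).indicator (fun t => ENNReal.ofReal (t ^ (-(α - γ) - 1))) t) 
        ≤ ENNReal.ofReal (α - γ) * (ENNReal.ofReal (G x ^ α) * ∫⁻ t,
          (Ioi (G x)).indicator (fun t => ENNReal.ofReal (t ^ (-(α - γ) - 1))) t) := by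
          gcongr
          exact Measure.restrict_le_self
      _ = ENNReal.ofReal (G x ^ α) * (ENNReal.ofReal (α - γ) *
          ∫⁻ t in Ioi (G x), ENNReal.ofReal (t ^ (-(α - γ) - 1))) := by
          rw [lintegral_indicator measurableSet_Ioi]; ring
      _ = ENNReal.ofReal (G x ^ γ) := by
          rw [inner_B h (by linarith), ← ENNReal.ofReal_mul (by positivity), ← Real.rpow_add h]
          congr 2
          ring

/-- The estimate. -/
lemma core [SFinite μ] {F G : X → ℝ} (hF : Measurable F) (hF0 : ∀ x, 0 ≤ F x) (hG : Measurable G)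
    (hG0 : ∀ x, 0 ≤ G x) {α β γ : ℝ} (hβ : 0 < β) (hβγ : β < γ) (hγα : γ < α)
    (h : ∀ t : ℝ, 0 < t → μ {x | 2 * t < F x} ≤
      ENNReal.ofReal (t ^ (-β)) * ∫⁻ x in {x | t ≤ G x}, ENNReal.ofReal (G x ^ β) ∂μ +
      ENNReal.ofReal (t ^ (-α)) * ∫⁻ x in {x | G x < t}, ENNReal.ofReal (G x ^ α) ∂μ) :
    ∫⁻ x, ENNReal.ofReal (F x ^ γ) ∂μ ≤
      ENNReal.ofReal (2 ^ γ * (γ / (γ - β) + γ / (α - γ))) * ∫⁻ x, ENNReal.ofReal (G x ^ γ) ∂μ := by
  have hγ : 0 < γ := hβ.trans hβγ
  have hγβ : 0 < γ - β := sub_pos.mpr hβγ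
  have hαγ : 0 < α - γ := sub_pos.mpr hγα
  set J := ∫⁻ x, ENNReal.ofReal (G x ^ γ) ∂μ with hJ
  set A := ∫⁻ t in Ioi (0 : ℝ), (ENNReal.ofReal (t ^ (-β)) *
      ∫⁻ x in {x | t ≤ G x}, ENNReal.ofReal (G x ^ β) ∂μ) * ENNReal.ofReal (t ^ (γ - 1)) with hA
  set B := ∫⁻ t in Ioi (0 : ℝ), (ENNReal.ofReal (t ^ (-α)) *
      ∫⁻ x in {x | G x < t}, ENNReal.ofReal (G x ^ α) ∂μ) * ENNReal.ofReal (t ^ (γ - 1)) with hB
  have hAJ : A = ENNReal.ofReal (1 / (γ - β)) * J := by
    rw [hJ, ← termA hG hG0 hβ hβγ, ← mul_assoc, ← ENNReal.ofReal_mul (by positivity),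
      one_div_mul_cancel hγβ.ne', ENNReal.ofReal_one, one_mul]
  have hBJ : B ≤ ENNReal.ofReal (1 / (α - γ)) * J := by
    calc B = ENNReal.ofReal (1 / (α - γ)) * (ENNReal.ofReal (α - γ) * B) := by
          rw [← mul_assoc, ← ENNReal.ofReal_mul (by positivity),
            one_div_mul_cancel hαγ.ne', ENNReal.ofReal_one, one_mul]
      _ ≤ _ := by gcongr; exact termB hG hG0 hγ hγα
  have h1 : ∫⁻ x, ENNReal.ofReal (F x ^ γ) ∂μ =
      ENNReal.ofReal (2 ^ γ) * ∫⁻ x, ENNReal.ofReal ((F x / 2) ^ γ) ∂μ := by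
    rw [← lintegral_const_mul' _ _ ENNReal.ofReal_ne_top]
    refine lintegral_congr (fun x => ?_)
    rw [← ENNReal.ofReal_mul (by positivity), ← Real.mul_rpow (by norm_num) (by linarith [hF0 x])]
    congr 2
    ring
  have h2 := lintegral_rpow_eq_lintegral_meas_lt_mul μ (f := fun x => F x / 2)
    (ae_of_all _ (fun x => by have := hF0 x; simp only [Pi.zero_apply]; linarith))
    (hF.div_const 2).aemeasurable hγ
  have h3 : ∫⁻ t in Ioi (0 : ℝ), μ {x | t < F x / 2} * ENNReal.ofReal (t ^ (γ - 1)) ≤ A + B := by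
    rw [hA, hB, ← lintegral_add_left']
    · refine setLIntegral_mono_ae' measurableSet_Ioi (ae_of_all _ (fun t ht => ?_))
      rw [← add_mul]
      gcongr
      have h4 : {x | t < F x / 2} = {x | 2 * t < F x} := by
        ext x; simp only [Set.mem_ofPred_eq]; constructor <;> intro h <;> linarith
      rw [h4]
      exact h t ht
    · -- measurability in `t`
      have hmq : Measurable (({q : ℝ × X | q.1 ≤ G q.2} : Set (ℝ × X)).indicator (fun q =>
          ENNReal.ofReal (G q.2 ^ β))) := by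
        refine Measurable.indicator ?_ (measurableSet_le (by fun_prop) (by fun_prop))
        fun_prop
      have hm2 : Measurable (fun t : ℝ => ∫⁻ x in {x | t ≤ G x}, ENNReal.ofReal (G x ^ β) ∂μ) := by
        have h5 := hmq.lintegral_prod_right' (ν := μ)
        convert h5 using 2 with t
        rw [← lintegral_indicator (measurableSet_le measurable_const hG)]
        rfl
      exact (((by fun_prop : Measurable (fun t : ℝ => ENNReal.ofReal (t ^ (-β)))).mul hm2).mul
        (by fun_prop)).aemeasurable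
  rw [h1, h2]
  calc ENNReal.ofReal (2 ^ γ) * (ENNReal.ofReal γ *
        ∫⁻ t in Ioi (0 : ℝ), μ {x | t < F x / 2} * ENNReal.ofReal (t ^ (γ - 1)))
      ≤ ENNReal.ofReal (2 ^ γ) * (ENNReal.ofReal γ *
        (ENNReal.ofReal (1 / (γ - β)) * J + ENNReal.ofReal (1 / (α - γ)) * J)) := by
        gcongr
        exact h3.trans (add_le_add hAJ.le hBJ)
    _ = _ := by
        rw [← add_mul, ← ENNReal.ofReal_add (by positivity) (by positivity), ← mul_assoc,
          ← mul_assoc, ← ENNReal.ofReal_mul (by positivity), ← ENNReal.ofReal_mul (by positivity)]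
        congr 2
        ring

end Pool.Agent.K9h27.LI
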