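import Mathlib
import Pool.Agent.K9h27.LI.Mar

/-!
# Lipschitz interpolation between `L^β` and `L^α`
-/

set_option autoImplicit false

open MeasureTheory Filter Topology Set ENNReal NNReal

namespace Pool.Agent.K9h27.LI

variable {X : Type*} [MeasurableSpace X] {μ : Measure X} [IsFiniteMeasure μ]

/-- Extension of the Lipschitz estimate in `L^a` to pairs of elements of `L^b` which differ by an
element of `L^a`. -/
lemma extend {a b : ℝ≥0∞} (hb : 1 ≤ b) (hb' : b ≠ ⊤) (U : Lp ℂ b μ → Lp ℂ b μ) (M₀ M₁ : ℝ≥0)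
    (h0 : ∀ x y : Lp ℂ b μ, eLpNorm (⇑(U x) - ⇑(U y)) b μ ≤ M₀ * eLpNorm (⇑x - ⇑y) b μ)
    (h1 : ∀ x y : Lp ℂ b μ, MemLp x a μ → MemLp y a μ →
      eLpNorm (⇑(U x) - ⇑(U y)) a μ ≤ M₁ * eLpNorm (⇑x - ⇑y) a μ)
    (y h : Lp ℂ b μ) (hh : MemLp h a μ) :
    eLpNorm (⇑(U (y + h)) - ⇑(U y)) a μ ≤ M₁ * eLpNorm h a μ := by
  have hb0 : b ≠ 0 := (lt_of_lt_of_le one_pos hb).ne'
  -- approximation of `y`
  have hex : ∀ n : ℕ, ∃ g : Lp ℂ b μ, MemLp g a μ ∧ eLpNorm (⇑y - ⇑g) b μ ≤ ENNReal.ofReal (1 / (n + 1)) := by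
    intro n
    obtain ⟨g, hg1, hg2⟩ := (Lp.memLp y).exists_simpleFunc_eLpNorm_sub_lt hb'
      (ε := ENNReal.ofReal (1 / ((n : ℝ) + 1))) (by simpa using (by positivity : (0 : ℝ) < (n : ℝ) + 1))
    refine ⟨hg2.toLp, ?_, ?_⟩
    · exact (memLp_congr_ae hg2.coeFn_toLp).mpr (SimpleFunc.memLp_of_isFiniteMeasure g a μ)
    · rw [eLpNorm_congr_ae (EventuallyEq.rfl.sub hg2.coeFn_toLp)]
      exact hg1.le
  choose g hga hgy using hex
  have hlim : Tendsto (fun n : ℕ => ENNReal.ofReal (1 / ((n : ℝ) + 1))) atTop (𝓝 0) := by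
    have := ENNReal.tendsto_ofReal (tendsto_one_div_add_atTop_nhds_zero_nat (𝕜 := ℝ))
    simpa using this
  set w : ℕ → X → ℂ := fun n => ⇑(U (g n + h)) - ⇑(U (g n)) with hw
  set wi : X → ℂ := ⇑(U (y + h)) - ⇑(U y) with hwi
  have hwm : ∀ n, AEStronglyMeasurable (w n) μ := fun n =>
    (Lp.aestronglyMeasurable _).sub (Lp.aestronglyMeasurable _)
  have hwim : AEStronglyMeasurable wi μ := (Lp.aestronglyMeasurable _).sub (Lp.aestronglyMeasurable _)
  have hconv : Tendsto (fun n => eLpNorm (w n - wi) b μ) atTop (𝓝 0) := by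
    have h2 : ∀ n, eLpNorm (w n - wi) b μ ≤ 2 * M₀ * ENNReal.ofReal (1 / ((n : ℝ) + 1)) := by
      intro n
      have h3 : w n - wi = (⇑(U (g n + h)) - ⇑(U (y + h))) + (⇑(U y) - ⇑(U (g n))) := by
        rw [hw, hwi]; funext x; simp only [Pi.sub_apply, Pi.add_apply]; ring
      rw [h3]
      refine (eLpNorm_add_le ((Lp.aestronglyMeasurable _).sub (Lp.aestronglyMeasurable _))
        ((Lp.aestronglyMeasurable _).sub (Lp.aestronglyMeasurable _)) hb).trans ?_
      have h4 : eLpNorm (⇑(U (g n + h)) - ⇑(U (y + h))) b μ ≤ M₀ * ENNReal.ofReal (1 / ((n : ℝ) + 1)) := by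
        refine (h0 _ _).trans ?_
        gcongr
        have h5 : (⇑(g n + h) - ⇑(y + h) : X → ℂ) =ᵐ[μ] ⇑(g n) - ⇑y := by
          filter_upwards [Lp.coeFn_add (g n) h, Lp.coeFn_add y h] with x h6 h7
          simp only [Pi.sub_apply, h6, h7, Pi.add_apply]
          ring
        rw [eLpNorm_congr_ae h5, eLpNorm_sub_comm]
        exact hgy n
      have h5 : eLpNorm (⇑(U y) - ⇑(U (g n))) b μ ≤ M₀ * ENNReal.ofReal (1 / ((n : ℝ) + 1)) := by
        refine (h0 _ _).trans ?_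
        gcongr
        exact hgy n
      calc _ ≤ _ := add_le_add h4 h5
        _ = _ := by ring
    refine tendsto_of_tendsto_of_tendsto_of_le_of_le tendsto_const_nhds ?_ (fun n => bot_le) h2
    have := ENNReal.Tendsto.const_mul (a := 2 * (M₀ : ℝ≥0∞)) hlim (Or.inr (by finiteness))
    simpa using this
  obtain ⟨ns, hns, hae⟩ := (tendstoInMeasure_of_tendsto_eLpNorm hb0 hwm hwim hconv).exists_seq_tendsto_ae
  have hfat := Lp.eLpNorm_lim_le_liminf_eLpNorm (p := a) (fun n => hwm (ns n)) wi hae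
  refine hfat.trans ?_
  refine (liminf_le_liminf (v := fun _ => (M₁ : ℝ≥0∞) * eLpNorm h a μ) ?_).trans ?_
  · refine Eventually.of_forall (fun n => ?_)
    have h2 := h1 (g (ns n) + h) (g (ns n))
      ((memLp_congr_ae (Lp.coeFn_add _ _)).mpr ((hga _).add hh)) (hga _)
    refine h2.trans (le_of_eq ?_)
    congr 1
    refine eLpNorm_congr_ae ?_
    filter_upwards [Lp.coeFn_add (g (ns n)) h] with x h6
    simp only [Pi.sub_apply, h6, Pi.add_apply]
    ring
  · simp

lemma ofReal_norm_rpow (z : ℂ) {p : ℝ} (hp : 0 ≤ p) : ENNReal.ofReal (‖z‖ ^ p) = ‖z‖ₑ ^ p := by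
  rw [← ofReal_norm, ENNReal.ofReal_rpow_of_nonneg (norm_nonneg z) hp]

lemma eLpNorm_pow {f : X → ℂ} {p : ℝ} (hp : 0 < p) :
    eLpNorm f (ENNReal.ofReal p) μ ^ p = ∫⁻ x, ENNReal.ofReal (‖f x‖ ^ p) ∂μ := by
  have h0 : ENNReal.ofReal p ≠ 0 := by simpa using hp
  rw [eLpNorm_eq_lintegral_rpow_enorm_toReal h0 ENNReal.ofReal_ne_top,
    ENNReal.toReal_ofReal hp.le, ← ENNReal.rpow_mul, one_div_mul_cancel hp.ne', ENNReal.rpow_one]
  exact lintegral_congr (fun x => (ofReal_norm_rpow _ hp.le).symm)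

/-- Chebyshev's inequality -/
lemma cheb {f : X → ℂ} (hf : AEStronglyMeasurable f μ) {p : ℝ} (hp : 0 < p) {K : ℝ≥0∞}
    {M t : ℝ} (hM : 0 < M) (ht : 0 < t)
    (h : eLpNorm f (ENNReal.ofReal p) μ ^ p ≤ ENNReal.ofReal (M ^ p) * K) :
    μ {x | M * t < ‖f x‖} ≤ ENNReal.ofReal (t ^ (-p)) * K := by
  have h0 : ENNReal.ofReal p ≠ 0 := by simpa using hp
  have hMt : ENNReal.ofReal (M * t) ≠ 0 := by
    simpa using (mul_pos hM ht)
  have h1 := meas_ge_le_mul_pow_eLpNorm_enorm μ h0 ENNReal.ofReal_ne_top hf hMt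
    (fun h => absurd h ENNReal.ofReal_ne_top)
  rw [ENNReal.toReal_ofReal hp.le] at h1
  calc μ {x | M * t < ‖f x‖} ≤ μ {x | ENNReal.ofReal (M * t) ≤ ‖f x‖ₑ} := by
        refine measure_mono (fun x hx => ?_)
        simp only [Set.mem_ofPred_eq] at hx ⊢
        rw [← ofReal_norm]
        exact ENNReal.ofReal_le_ofReal hx.le
    _ ≤ _ := h1
    _ ≤ (ENNReal.ofReal (M * t))⁻¹ ^ p * (ENNReal.ofReal (M ^ p) * K) := by gcongr
    _ = _ := by
        rw [← mul_assoc]
        congr 1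
        rw [← ENNReal.ofReal_inv_of_pos (mul_pos hM ht),
          ENNReal.ofReal_rpow_of_nonneg (by positivity) hp.le, ← ENNReal.ofReal_mul (by positivity)]
        congr 1
        rw [Real.inv_rpow (by positivity), Real.mul_rpow hM.le ht.le, Real.rpow_neg ht.le]
        field_simp

/-- The main estimate. -/
lemma main_est {α β γ : ℝ} (hβ : 1 ≤ β) (hβγ : β < γ) (hγα : γ < α)
    (U : Lp ℂ (ENNReal.ofReal β) μ → Lp ℂ (ENNReal.ofReal β) μ) (M₀ M₁ : ℝ≥0)
    (h0 : ∀ x y : Lp ℂ (ENNReal.ofReal β) μ, eLpNorm (⇑(U x) - ⇑(U y)) (ENNReal.ofReal β) μ ≤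
      M₀ * eLpNorm (⇑x - ⇑y) (ENNReal.ofReal β) μ)
    (h1 : ∀ x y : Lp ℂ (ENNReal.ofReal β) μ, MemLp x (ENNReal.ofReal α) μ →
      MemLp y (ENNReal.ofReal α) μ →
      eLpNorm (⇑(U x) - ⇑(U y)) (ENNReal.ofReal α) μ ≤ M₁ * eLpNorm (⇑x - ⇑y) (ENNReal.ofReal α) μ)
    (x y : Lp ℂ (ENNReal.ofReal β) μ) :
    eLpNorm (⇑(U x) - ⇑(U y)) (ENNReal.ofReal γ) μ ≤
      ENNReal.ofReal (2 * (γ / (γ - β) + γ / (α - γ)) ^ (1 / γ) * (max M₀ M₁ : ℝ≥0)) *
        eLpNorm (⇑x - ⇑y) (ENNReal.ofReal γ) μ := by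
  have hβ0 : 0 < β := by linarith
  have hγ0 : 0 < γ := by linarith
  have hα0 : 0 < α := by linarith
  have hb1 : 1 ≤ ENNReal.ofReal β := by
    rw [← ENNReal.ofReal_one]; exact ENNReal.ofReal_le_ofReal hβ
  have hfact : Fact (1 ≤ ENNReal.ofReal β) := ⟨hb1⟩
  set M : ℝ≥0 := max M₀ M₁ with hM
  rcases eq_or_lt_of_le (zero_le : 0 ≤ M) with hM0 | hM0
  · -- `M = 0`: the map is constant
    have h2 : M₀ = 0 := le_antisymm ((le_max_left _ _).trans_eq (hM.symm.trans hM0.symm)) zero_le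
    have h3 := h0 x y
    rw [h2, ENNReal.coe_zero, zero_mul, nonpos_iff_eq_zero, eLpNorm_eq_zero_iff
      ((Lp.aestronglyMeasurable _).sub (Lp.aestronglyMeasurable _)) (by simpa using hβ0)] at h3
    rw [eLpNorm_congr_ae h3]
    simp
  have hMr : (0 : ℝ) < M := by exact_mod_cast hM0
  set z : X → ℂ := ⇑x - ⇑y with hz
  set w : X → ℂ := ⇑(U x) - ⇑(U y) with hw
  have hzm : Measurable z := (Lp.stronglyMeasurable _).measurable.sub (Lp.stronglyMeasurable _).measurable
  have hwm : Measurable w := (Lp.stronglyMeasurable _).measurable.sub (Lp.stronglyMeasurable _).measurable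
  have hcore := core (μ := μ) (F := fun x => ‖w x‖ / M) (G := fun x => ‖z x‖)
    (hwm.norm.div_const _) (fun x => by positivity) hzm.norm (fun x => norm_nonneg _) hβ0 hβγ hγα ?_
  · -- conclusion
    have hK : 0 ≤ γ / (γ - β) + γ / (α - γ) := by
      have : 0 < γ - β := by linarith
      have : 0 < α - γ := by linarith
      positivity
    have h2 : ∫⁻ x, ENNReal.ofReal (‖w x‖ ^ γ) ∂μ = ENNReal.ofReal ((M : ℝ) ^ γ) *
        ∫⁻ x, ENNReal.ofReal ((‖w x‖ / M) ^ γ) ∂μ := by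
      rw [← lintegral_const_mul' _ _ ENNReal.ofReal_ne_top]
      refine lintegral_congr (fun x => ?_)
      rw [← ENNReal.ofReal_mul (by positivity), ← Real.mul_rpow (by positivity) (by positivity)]
      congr 2
      field_simp
    have h3 : eLpNorm w (ENNReal.ofReal γ) μ ^ γ ≤
        (ENNReal.ofReal (2 * (γ / (γ - β) + γ / (α - γ)) ^ (1 / γ) * (M : ℝ≥0)) *
          eLpNorm z (ENNReal.ofReal γ) μ) ^ γ := by
      rw [eLpNorm_pow hγ0, ENNReal.mul_rpow_of_nonneg _ _ hγ0.le, eLpNorm_pow hγ0, h2,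
        ENNReal.ofReal_rpow_of_nonneg (by positivity) hγ0.le]
      calc _ ≤ ENNReal.ofReal ((M : ℝ) ^ γ) * (ENNReal.ofReal (2 ^ γ * (γ / (γ - β) + γ / (α - γ))) *
            ∫⁻ x, ENNReal.ofReal (‖z x‖ ^ γ) ∂μ) := by gcongr
        _ = _ := by
          rw [← mul_assoc, ← ENNReal.ofReal_mul (by positivity)]
          congr 2
          rw [Real.mul_rpow (by positivity) hMr.le, Real.mul_rpow (by norm_num) (by positivity),
            ← Real.rpow_mul hK, one_div_mul_cancel hγ0.ne', Real.rpow_one]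
          ring
    exact (ENNReal.rpow_le_rpow_iff hγ0).mp h3
  · -- the distributional inequality
    intro t ht
    set S : Set X := {x | ‖z x‖ < t} with hS
    have hSm : MeasurableSet S := measurableSet_lt hzm.norm measurable_const
    set z₁ : X → ℂ := S.indicator z with hz1
    have hz1m : Measurable z₁ := hzm.indicator hSm
    have hz1b : ∀ x, ‖z₁ x‖ ≤ t := by
      intro x
      rw [hz1]
      by_cases hx : x ∈ S
      · rw [indicator_of_mem hx]; exact le_of_lt hx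
      · rw [indicator_of_notMem hx]; simpa using ht.le
    have hz1L : ∀ q : ℝ≥0∞, MemLp z₁ q μ := fun q =>
      MemLp.of_bound hz1m.aestronglyMeasurable t (ae_of_all _ hz1b)
    set h : Lp ℂ (ENNReal.ofReal β) μ := (hz1L (ENNReal.ofReal β)).toLp with hh
    have hhc : ⇑h =ᵐ[μ] z₁ := (hz1L (ENNReal.ofReal β)).coeFn_toLp
    set w₀ : X → ℂ := ⇑(U x) - ⇑(U (y + h)) with hw0
    set w₁ : X → ℂ := ⇑(U (y + h)) - ⇑(U y) with hw1
    have hw0m : AEStronglyMeasurable w₀ μ := (Lp.aestronglyMeasurable _).sub (Lp.aestronglyMeasurable _)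
    have hw1m : AEStronglyMeasurable w₁ μ := (Lp.aestronglyMeasurable _).sub (Lp.aestronglyMeasurable _)
    have e1 : eLpNorm w₁ (ENNReal.ofReal α) μ ≤ M * eLpNorm z₁ (ENNReal.ofReal α) μ := by
      have h4 := extend hb1 ENNReal.ofReal_ne_top U M₀ M₁ h0 h1 y h ((memLp_congr_ae hhc).mpr (hz1L _))
      rw [eLpNorm_congr_ae hhc] at h4
      refine h4.trans ?_
      gcongr
      exact le_max_right _ _
    have e0 : eLpNorm w₀ (ENNReal.ofReal β) μ ≤ M * eLpNorm (Sᶜ.indicator z) (ENNReal.ofReal β) μ := by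
      refine (h0 _ _).trans ?_
      have h5 : (⇑x - ⇑(y + h) : X → ℂ) =ᵐ[μ] Sᶜ.indicator z := by
        filter_upwards [Lp.coeFn_add y h, hhc] with u h6 h7
        have h8 := congrFun (indicator_self_add_compl S z) u
        simp only [Pi.add_apply] at h8
        simp only [Pi.sub_apply, h6, h7, Pi.add_apply]
        rw [hz1, ← sub_sub]
        have h9 : z u = x u - y u := rfl
        rw [← h9, ← h8]
        ring
      rw [eLpNorm_congr_ae h5]
      gcongr
      exact le_max_left _ _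
    have d1 : μ {x | (M : ℝ) * t < ‖w₁ x‖} ≤ ENNReal.ofReal (t ^ (-α)) *
        ∫⁻ x in S, ENNReal.ofReal (‖z x‖ ^ α) ∂μ := by
      refine cheb hw1m hα0 hMr ht ?_
      calc eLpNorm w₁ (ENNReal.ofReal α) μ ^ α ≤ (M * eLpNorm z₁ (ENNReal.ofReal α) μ) ^ α := by
            gcongr
        _ = _ := by
            rw [ENNReal.mul_rpow_of_nonneg _ _ hα0.le, eLpNorm_pow hα0]
            congr 1
            · rw [← ENNReal.ofReal_coe_nnreal, ENNReal.ofReal_rpow_of_nonneg hMr.le hα0.le]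
            · rw [← lintegral_indicator hSm]
              refine lintegral_congr (fun u => ?_)
              rw [hz1]
              by_cases hu : u ∈ S
              · rw [indicator_of_mem hu, indicator_of_mem hu]
              · rw [indicator_of_notMem hu, indicator_of_notMem hu, norm_zero,
                  Real.zero_rpow hα0.ne', ENNReal.ofReal_zero]
    have d0 : μ {x | (M : ℝ) * t < ‖w₀ x‖} ≤ ENNReal.ofReal (t ^ (-β)) *
        ∫⁻ x in Sᶜ, ENNReal.ofReal (‖z x‖ ^ β) ∂μ := by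
      refine cheb hw0m hβ0 hMr ht ?_
      calc eLpNorm w₀ (ENNReal.ofReal β) μ ^ β ≤
            (M * eLpNorm (Sᶜ.indicator z) (ENNReal.ofReal β) μ) ^ β := by gcongr
        _ = _ := by
            rw [ENNReal.mul_rpow_of_nonneg _ _ hβ0.le, eLpNorm_pow hβ0]
            congr 1
            · rw [← ENNReal.ofReal_coe_nnreal, ENNReal.ofReal_rpow_of_nonneg hMr.le hβ0.le]
            · rw [← lintegral_indicator hSm.compl]
              refine lintegral_congr (fun u => ?_)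
              by_cases hu : u ∈ Sᶜ
              · rw [indicator_of_mem hu, indicator_of_mem hu]
              · rw [indicator_of_notMem hu, indicator_of_notMem hu, norm_zero,
                  Real.zero_rpow hβ0.ne', ENNReal.ofReal_zero]
    have hsub : {x | 2 * t < ‖w x‖ / M} ⊆ {x | (M : ℝ) * t < ‖w₀ x‖} ∪ {x | (M : ℝ) * t < ‖w₁ x‖} := by
      intro u hu
      by_contra hcon
      simp only [mem_union, Set.mem_ofPred_eq, not_or, not_lt] at hcon hu
      rw [lt_div_iff₀ hMr] at hu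
      have h6 : w u = w₀ u + w₁ u := by
        rw [hw, hw0, hw1]; simp only [Pi.sub_apply]; ring
      have h7 := norm_add_le (w₀ u) (w₁ u)
      rw [← h6] at h7
      linarith [hcon.1, hcon.2]
    have hSc : Sᶜ = {x | t ≤ ‖z x‖} := by
      ext u; simp [hS]
    refine (measure_mono hsub).trans ((measure_union_le _ _).trans (add_le_add ?_ d1))
    rw [hSc] at d0
    exact d0

end Pool.Agent.K9h27.LI
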